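import Mathlib

/-!
# Multiple zeta values of a sequence

`V x [a_1, ..., a_t] m` is the sum of `x_{n_1}^{a_1} ... x_{n_t}^{a_t}` over `m ≤ n_1 < n_2 < ... < n_t`. For
`x_n = 1/(n+1)` and `m = 0` this is the multiple zeta value `ζ(a_t, ..., a_1)`.
-/

set_option autoImplicit false

open MeasureTheory ProbabilityTheory Filter Finset

namespace Pool.Agent.T2H51.RZ

/-- the sum of `x_{n_1}^{a_1} ... x_{n_t}^{a_t}` over `m ≤ n_1 < n_2 < ... < n_t` -/
noncomputable def V (x : ℕ → ℝ) : List ℕ → ℕ → ℝ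
  | [], _ => 1
  | a :: l, m => ∑' n : ℕ, x (m + n) ^ a * V x l (m + n + 1)

/-- admissible lists: all entries are positive, and the last one (if there is one) is at least `2` -/
def Adm : List ℕ → Prop
  | [] => True
  | [a] => 2 ≤ a
  | a :: b :: l => 1 ≤ a ∧ Adm (b :: l)

/-- the rational span of the values of weight `p` -/
noncomputable def Z (x : ℕ → ℝ) (p : ℕ) : Submodule ℚ ℝ :=
  Submodule.span ℚ {z : ℝ | ∃ l : List ℕ, Adm l ∧ l.sum = p ∧ z = V x l 0}

lemma adm_tail {a : ℕ} {l : List ℕ} (h : Adm (a :: l)) : Adm l := by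
  cases l with
  | nil => trivial
  | cons b l => exact h.2

lemma adm_head {a : ℕ} {l : List ℕ} (h : Adm (a :: l)) : 1 ≤ a := by
  cases l with
  | nil => exact le_trans (by norm_num) (show 2 ≤ a from h)
  | cons b l => exact h.1

lemma V_shift (x : ℕ → ℝ) (l : List ℕ) : ∀ m, V (fun n => x (n + 1)) l m = V x l (m + 1) := by
  induction l with
  | nil => intro m; simp [V]
  | cons a l ih =>
      intro m
      simp only [V]
      refine tsum_congr fun n => ?_
      rw [ih, show m + n + 1 = m + 1 + n by ring]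

lemma V_meas (l : List ℕ) : ∀ m, Measurable fun x : ℕ → ℝ => V x l m := by
  induction l with
  | nil => intro m; simp only [V]; exact measurable_const
  | cons a l ih =>
      intro m
      simp only [V]
      exact Measurable.tsum fun n => ((measurable_pi_apply _).pow_const _).mul (ih _)

/-- `1/√(t+1)` -/
noncomputable def u (t : ℕ) : ℝ := 1 / Real.sqrt (t + 1)
/-- `1/((t+1)√(t+1))` -/
noncomputable def w (t : ℕ) : ℝ := 1 / ((t + 1) * Real.sqrt (t + 1))

lemma u_pos (t : ℕ) : 0 < u t := by unfold u; positivity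
lemma w_pos (t : ℕ) : 0 < w t := by unfold w; positivity

lemma u_succ_le (t : ℕ) : u (t + 1) ≤ u t := by
  unfold u
  refine div_le_div_of_nonneg_left (by norm_num) (by positivity) (Real.sqrt_le_sqrt ?_)
  push_cast
  linarith

lemma w_le (t : ℕ) : w t ≤ 4 * (u t - u (t + 1)) := by
  unfold w u
  set s : ℝ := Real.sqrt (t + 1) with hs
  set r : ℝ := Real.sqrt (((t + 1 : ℕ) : ℝ) + 1) with hr
  have hs2 : s ^ 2 = t + 1 := Real.sq_sqrt (by positivity)
  have hr2 : r ^ 2 = t + 2 := by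
    rw [hr, Real.sq_sqrt (by positivity)]; push_cast; ring
  have hs0 : 0 < s := by rw [hs]; positivity
  have hr0 : 0 < r := by rw [hr]; positivity
  have ht : (0 : ℝ) ≤ t := Nat.cast_nonneg t
  have hrs : r ≤ 3 / 2 * s := by
    have : r ^ 2 ≤ (3 / 2 * s) ^ 2 := by rw [mul_pow, hs2, hr2]; nlinarith
    exact le_of_pow_le_pow_left₀ (by norm_num) (by positivity) this
  have h1 : 1 / s - 1 / r = 1 / (s * r * (s + r)) := by
    have h2 : r ^ 2 - s ^ 2 = 1 := by rw [hs2, hr2]; ring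
    rw [div_sub_div _ _ hs0.ne' hr0.ne', div_eq_div_iff (by positivity) (by positivity)]
    linear_combination (s * r) * h2
  rw [h1, ← hs2, mul_one_div, div_le_div_iff₀ (by positivity) (by positivity)]
  have h3 : s * r * (s + r) ≤ s * (3 / 2 * s) * (s + 3 / 2 * s) := by
    have h4 : s * r ≤ s * (3 / 2 * s) := mul_le_mul_of_nonneg_left hrs hs0.le
    exact mul_le_mul h4 (by linarith) (by positivity) (by positivity)
  nlinarith [pow_pos hs0 3]

lemma w_sum (m : ℕ) : Summable (fun n => w (m + n)) ∧ ∑' n, w (m + n) ≤ 4 * u m := by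
  have h1 : ∀ N, ∑ n ∈ range N, w (m + n) ≤ 4 * u m := by
    intro N
    have h2 : ∑ n ∈ range N, w (m + n) ≤ 4 * (u m - u (m + N)) := by
      induction N with
      | zero => simp
      | succ N ih =>
          rw [sum_range_succ]
          have := w_le (m + N)
          have h3 : m + (N + 1) = m + N + 1 := by ring
          rw [h3]
          linarith
    have := u_pos (m + N)
    linarith
  have h2 : Summable (fun n => w (m + n)) := summable_of_sum_range_le (fun n => (w_pos _).le) h1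
  exact ⟨h2, Real.tsum_le_of_sum_range_le (fun n => (w_pos _).le) h1⟩

section
variable {x : ℕ → ℝ} {A : ℝ}

lemma pow_bd (hA : 1 ≤ A) (hx : ∀ n, |x n| ≤ A / (n + 1)) (a : ℕ) (ha : 1 ≤ a) (t : ℕ) :
    |x t ^ a| ≤ A ^ a * (1 / (t + 1)) := by
  have ht : (0 : ℝ) < (t : ℝ) + 1 := by positivity
  rw [abs_pow]
  refine (pow_le_pow_left₀ (abs_nonneg _) (hx t) a).trans ?_
  rw [div_pow, div_eq_mul_one_div]
  refine mul_le_mul_of_nonneg_left ?_ (by positivity)
  refine div_le_div_of_nonneg_left (by norm_num) ht ?_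
  exact le_self_pow₀ (by linarith [(Nat.cast_nonneg t : (0 : ℝ) ≤ t)]) (by omega)

lemma pow_bd2 (hA : 1 ≤ A) (hx : ∀ n, |x n| ≤ A / (n + 1)) (a : ℕ) (ha : 2 ≤ a) (t : ℕ) :
    |x t ^ a| ≤ A ^ a * w t := by
  have ht : (0 : ℝ) < (t : ℝ) + 1 := by positivity
  have ht1 : (1 : ℝ) ≤ (t : ℝ) + 1 := by linarith [(Nat.cast_nonneg t : (0 : ℝ) ≤ t)]
  rw [abs_pow]
  refine (pow_le_pow_left₀ (abs_nonneg _) (hx t) a).trans ?_
  rw [div_pow, div_eq_mul_one_div]
  refine mul_le_mul_of_nonneg_left ?_ (by positivity)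
  unfold w
  refine div_le_div_of_nonneg_left (by norm_num) (by positivity) ?_
  have h1 : Real.sqrt ((t : ℝ) + 1) ≤ (t : ℝ) + 1 := by
    rw [Real.sqrt_le_left (by positivity)]
    nlinarith
  have h2 : ((t : ℝ) + 1) ^ 2 ≤ ((t : ℝ) + 1) ^ a := pow_le_pow_right₀ ht1 ha
  nlinarith

lemma sum_of_term {g : ℕ → ℝ} {C : ℝ} (hg : ∀ t, |g t| ≤ C * w t) (m : ℕ) :
    Summable (fun n => g (m + n)) ∧ |∑' n, g (m + n)| ≤ C * (4 * u m) := by
  obtain ⟨h1, h2⟩ := w_sum m
  have hC : 0 ≤ C := by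
    have h3 := (abs_nonneg _).trans (hg 0)
    by_contra hneg
    push Not at hneg
    nlinarith [w_pos 0]
  have h3 : Summable (fun n => C * w (m + n)) := h1.mul_left C
  have h4 : Summable (fun n => |g (m + n)|) := Summable.of_nonneg_of_le (fun n => abs_nonneg _) (fun n => hg _) h3
  refine ⟨h4.of_abs, ?_⟩
  have h5 : |∑' n, g (m + n)| ≤ ∑' n, |g (m + n)| := by
    simpa only [Real.norm_eq_abs] using norm_tsum_le_tsum_norm (f := fun n => g (m + n)) (by simpa using h4)
  refine h5.trans ((h4.tsum_le_tsum (fun n => hg _) h3).trans ?_)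
  rw [tsum_mul_left]
  exact mul_le_mul_of_nonneg_left h2 hC

lemma V_bd (hA : 1 ≤ A) (hx : ∀ n, |x n| ≤ A / (n + 1)) (l : List ℕ) :
    (Adm l → l ≠ [] → ∃ C : ℝ, 0 ≤ C ∧ ∀ m, |V x l m| ≤ C * u m) ∧
    ∀ a, Adm (a :: l) → ∃ C : ℝ, 0 ≤ C ∧ ∀ t, |x t ^ a * V x l (t + 1)| ≤ C * w t := by
  induction l with
  | nil =>
      refine ⟨fun _ h => absurd rfl h, fun a ha => ⟨A ^ a, by positivity, fun t => ?_⟩⟩
      simp only [V, mul_one]
      exact pow_bd2 hA hx a ha t
  | cons b l ih =>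
      have key : Adm (b :: l) → ∃ C : ℝ, 0 ≤ C ∧ ∀ m, |V x (b :: l) m| ≤ C * u m := by
        intro hb
        obtain ⟨C, hC, h1⟩ := ih.2 b hb
        refine ⟨4 * C, by positivity, fun m => ?_⟩
        have h2 := (sum_of_term (g := fun t => x t ^ b * V x l (t + 1)) h1 m).2
        simp only [V]
        refine h2.trans (le_of_eq (by ring))
      refine ⟨fun hb _ => key hb, fun a ha => ?_⟩
      obtain ⟨C, hC, h1⟩ := key (adm_tail ha)
      refine ⟨A ^ a * C, by positivity, fun t => ?_⟩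
      rw [abs_mul]
      have h2 := pow_bd hA hx a (adm_head ha) t
      have h3 : |V x (b :: l) (t + 1)| ≤ C * u t :=
        (h1 (t + 1)).trans (mul_le_mul_of_nonneg_left (u_succ_le t) hC)
      refine (mul_le_mul h2 h3 (abs_nonneg _) (by positivity)).trans (le_of_eq ?_)
      unfold w u
      have h4 : (0 : ℝ) < Real.sqrt ((t : ℝ) + 1) := by positivity
      field_simp

lemma V_cons (hA : 1 ≤ A) (hx : ∀ n, |x n| ≤ A / (n + 1)) (a : ℕ) (l : List ℕ) (h : Adm (a :: l)) (m : ℕ) :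
    V x (a :: l) m = x m ^ a * V x l (m + 1) + V x (a :: l) (m + 1) := by
  obtain ⟨C, -, h1⟩ := (V_bd hA hx l).2 a h
  have h2 := (sum_of_term (g := fun t => x t ^ a * V x l (t + 1)) h1 m).1
  simp only [V]
  rw [h2.tsum_eq_zero_add, add_zero]
  congr 1
  refine tsum_congr fun n => ?_
  rw [show m + (n + 1) = m + 1 + n by ring]

lemma V_zero (hA : 1 ≤ A) (hx : ∀ n, |x n| ≤ A / (n + 1)) (a : ℕ) (l : List ℕ) (h : Adm (a :: l)) :
    V x (a :: l) 0 = x 0 ^ a * V (fun n => x (n + 1)) l 0 + V (fun n => x (n + 1)) (a :: l) 0 := by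
  rw [V_shift, V_shift]
  exact V_cons hA hx a l h 0

end

end Pool.Agent.T2H51.RZ
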