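import Pool.Agent.T2H51.RZ.Fin

/-! # The dimensions -/

set_option autoImplicit false

open MeasureTheory ProbabilityTheory Filter Finset

namespace Pool.Agent.T2H51.RZ

/-- the admissible lists of weight `N` -/
def cnt (N : ℕ) : Set (List ℕ) := {l | Adm l ∧ l.sum = N}

/-- increase the first entry -/
def inc : List ℕ → List ℕ
  | [] => []
  | a :: l => (a + 1) :: l

lemma adm_sum : ∀ (l : List ℕ), Adm l → l ≠ [] → 2 ≤ l.sum
  | [], _, h => absurd rfl h
  | [a], h, _ => by simpa using (show 2 ≤ a from h)
  | a :: b :: l, h, _ => by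
      have := adm_sum (b :: l) h.2 (by simp)
      rw [List.sum_cons]
      omega

lemma mem_cnt {N : ℕ} {l : List ℕ} : l ∈ cnt N ↔ Adm l ∧ l.sum = N := Iff.rfl

lemma cnt_zero : cnt 0 = {[]} := by
  ext l
  rw [mem_cnt, Set.mem_singleton_iff]
  constructor
  · rintro ⟨h1, h2⟩
    by_contra h
    have := adm_sum l h1 h
    omega
  · rintro rfl
    exact ⟨trivial, rfl⟩

lemma cnt_one : cnt 1 = ∅ := by
  rw [Set.eq_empty_iff_forall_notMem]
  rintro l ⟨h1, h2⟩
  have h : l ≠ [] := by rintro rfl; simp at h2
  have := adm_sum l h1 h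
  omega

lemma cnt_two : cnt 2 = {[2]} := by
  ext l
  rw [mem_cnt, Set.mem_singleton_iff]
  constructor
  · rintro ⟨h1, h2⟩
    cases l with
    | nil => simp at h2
    | cons a l =>
        have ha := adm_head h1
        rw [List.sum_cons] at h2
        by_cases h : l = []
        · subst h
          simp only [List.sum_nil] at h2
          rw [show a = 2 by omega]
        · have := adm_sum l (adm_tail h1) h
          omega
  · rintro rfl
    exact ⟨le_refl 2, rfl⟩

lemma cnt_succ (n : ℕ) (hn : 2 ≤ n) : cnt (n + 1) = inc '' cnt n ∪ List.cons 1 '' cnt n := by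
  ext l
  rw [Set.mem_union, Set.mem_image, Set.mem_image]
  constructor
  · rintro ⟨h1, h2⟩
    cases l with
    | nil => simp at h2
    | cons a l =>
        have ha := adm_head h1
        rw [List.sum_cons] at h2
        rcases Nat.lt_or_ge 1 a with h | h
        · left
          refine ⟨(a - 1) :: l, ⟨?_, ?_⟩, ?_⟩
          · cases l with
            | nil =>
                simp only [List.sum_nil] at h2
                show 2 ≤ a - 1
                omega
            | cons b l =>
                exact ⟨show 1 ≤ a - 1 by omega, h1.2⟩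
          · rw [List.sum_cons]; omega
          · show (a - 1 + 1) :: l = a :: l
            rw [show a - 1 + 1 = a by omega]
        · right
          have ha1 : a = 1 := by omega
          subst ha1
          exact ⟨l, ⟨adm_tail h1, by omega⟩, rfl⟩
  · rintro (⟨l', ⟨h1, h2⟩, rfl⟩ | ⟨l', ⟨h1, h2⟩, rfl⟩)
    · cases l' with
      | nil => simp only [List.sum_nil] at h2; omega
      | cons a l =>
          rw [List.sum_cons] at h2
          have ha := adm_head h1
          refine ⟨?_, ?_⟩
          · cases l with
            | nil =>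
                have : 2 ≤ a := h1
                show 2 ≤ a + 1
                omega
            | cons b l => exact ⟨show 1 ≤ a + 1 by omega, h1.2⟩
          · show (((a + 1) :: l).sum) = n + 1
            rw [List.sum_cons]; omega
    · cases l' with
      | nil => simp only [List.sum_nil] at h2; omega
      | cons a l => exact ⟨⟨le_refl 1, h1⟩, by rw [List.sum_cons, h2]; omega⟩

lemma cnt_card (N : ℕ) : (cnt (N + 2)).Finite ∧ (cnt (N + 2)).ncard = 2 ^ N := by
  induction N with
  | zero =>
      rw [cnt_two]
      exact ⟨Set.finite_singleton _, by simp⟩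
  | succ N ih =>
      obtain ⟨hf, hc⟩ := ih
      rw [show N + 1 + 2 = (N + 2) + 1 by ring, cnt_succ (N + 2) (by omega)]
      refine ⟨(hf.image _).union (hf.image _), ?_⟩
      have hne : ∀ l ∈ cnt (N + 2), l ≠ [] := by
        rintro l ⟨-, h2⟩ rfl
        simp at h2
      rw [Set.ncard_union_eq ?_ (hf.image _) (hf.image _), Set.ncard_image_of_injOn ?_,
        Set.ncard_image_of_injective _ List.cons_injective, hc, pow_succ]
      · ring
      · intro l hl l' hl' h
        have h1 := hne l hl
        have h2 := hne l' hl'
        cases l with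
        | nil => exact absurd rfl h1
        | cons a l =>
            cases l' with
            | nil => exact absurd rfl h2
            | cons b l' =>
                have h3 : (a + 1) :: l = (b + 1) :: l' := h
                rw [List.cons_eq_cons] at h3 ⊢
                exact ⟨by omega, h3.2⟩
      · rw [Set.disjoint_left]
        rintro l ⟨l', hl', rfl⟩ ⟨l'', hl'', h⟩
        have h1 := hne l' hl'
        cases l' with
        | nil => exact absurd rfl h1
        | cons a l' =>
            have h3 : 1 :: l'' = (a + 1) :: l' := h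
            rw [List.cons_eq_cons] at h3
            have := adm_head hl'.1
            omega

lemma finrank_Z {x : ℕ → ℝ} (h : LinearIndependent ℚ (fun l : {l : List ℕ // Adm l} => V x l.1 0)) (N : ℕ)
    (hf : (cnt N).Finite) : Module.finrank ℚ (Z x N) = (cnt N).ncard := by
  classical
  have : Fintype (cnt N) := hf.fintype
  set b : cnt N → ℝ := fun l => V x l.1 0 with hb
  have h1 : LinearIndependent ℚ b :=
    h.comp (fun l : cnt N => (⟨l.1, l.2.1⟩ : {l : List ℕ // Adm l})) (fun l l' hl => by
      apply Subtype.ext
      simpa using hl)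
  have h2 : Z x N = Submodule.span ℚ (Set.range b) := by
    unfold Z
    congr 1
    ext r
    constructor
    · rintro ⟨l, h3, h4, rfl⟩
      exact ⟨⟨l, h3, h4⟩, rfl⟩
    · rintro ⟨l, rfl⟩
      exact ⟨l.1, l.2.1, l.2.2, rfl⟩
  rw [h2, finrank_span_eq_card h1, ← Nat.card_eq_fintype_card, Nat.card_coe_set_eq]

lemma indep_Z {x : ℕ → ℝ} (h : LinearIndependent ℚ (fun l : {l : List ℕ // Adm l} => V x l.1 0)) :
    iSupIndep (Z x) := by
  classical
  set v : {l : List ℕ // Adm l} → ℝ := fun l => V x l.1 0 with hv
  have hZ : ∀ i, Z x i = Submodule.span ℚ (v '' {l | l.1.sum = i}) := by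
    intro i
    unfold Z
    congr 1
    ext r
    constructor
    · rintro ⟨l, h1, h2, rfl⟩
      exact ⟨⟨l, h1⟩, h2, rfl⟩
    · rintro ⟨l, h1, rfl⟩
      exact ⟨l.1, l.2, h1, rfl⟩
  intro j
  have hdis : Disjoint (Submodule.span ℚ (v '' {l | l.1.sum = j})) (Submodule.span ℚ (v '' {l | l.1.sum ≠ j})) := by
    refine h.disjoint_span_image ?_
    rw [Set.disjoint_left]
    intro l h3 h4
    exact h4 h3
  rw [hZ]
  refine hdis.mono_right (iSup₂_le fun i hi => ?_)
  rw [hZ]
  refine Submodule.span_mono (Set.image_mono fun l hl => ?_)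
  have h6 : l.1.sum = i := hl
  show l.1.sum ≠ j
  rw [h6]
  exact hi

lemma countable_bot : Countable (⊥ : Subfield ℝ) := by
  have h1 : (⊥ : Subfield ℝ) = (algebraMap ℚ ℝ).fieldRange := by
    refine le_antisymm bot_le ?_
    rintro _ ⟨q, rfl⟩
    rw [eq_ratCast]
    exact SubfieldClass.ratCast_mem _ q
  rw [h1]
  exact (Set.countable_range (algebraMap ℚ ℝ)).to_subtype

end Pool.Agent.T2H51.RZ
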