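import Pool.Agent.T2H51.RZ.Main

/-! # Directness; existence of the model -/

set_option autoImplicit false

open MeasureTheory ProbabilityTheory Filter Finset

namespace Pool.Agent.T2H51.RZ

lemma direct {x : ℕ → ℝ} (h : LinearIndependent ℚ (fun l : {l : List ℕ // Adm l} => V x l.1 0)) (p : ℕ)
    (z : ℕ → ℝ) (hz : ∀ j ≤ p, z j ∈ Z x j) (h0 : ∑ j ∈ range (p + 1), z j = 0) : ∀ j ≤ p, z j = 0 := by
  classical
  intro j hj
  set v : {l : List ℕ // Adm l} → ℝ := fun l => V x l.1 0 with hv
  have hZ : ∀ i, Z x i = Submodule.span ℚ (v '' {l | l.1.sum = i}) := by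
    intro i
    unfold Z
    congr 1
    ext r
    constructor
    · rintro ⟨l, h1, h2, rfl⟩
      exact ⟨⟨l, h1⟩, h2, rfl⟩
    · rintro ⟨l, h1, rfl⟩
      exact ⟨l.1, l.2, h1, rfl⟩
  have h1 : z j ∈ Submodule.span ℚ (v '' {l | l.1.sum = j}) := by
    rw [← hZ]; exact hz j hj
  have h2 : z j ∈ Submodule.span ℚ (v '' {l | l.1.sum ≠ j}) := by
    have h3 : z j = - ∑ i ∈ (range (p + 1)).erase j, z i := by
      rw [← Finset.add_sum_erase _ _ (mem_range.2 (by omega : j < p + 1))] at h0
      linarith
    rw [h3]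
    refine Submodule.neg_mem _ (Submodule.sum_mem _ fun i hi => ?_)
    have h4 : i ≤ p := by
      have := mem_range.1 (mem_of_mem_erase hi)
      omega
    have h5 := hz i h4
    rw [hZ] at h5
    refine Submodule.span_mono (Set.image_mono fun l hl => ?_) h5
    have h6 : l.1.sum = i := hl
    show l.1.sum ≠ j
    rw [h6]
    exact ne_of_mem_erase hi
  have hdis : Disjoint (Submodule.span ℚ (v '' {l | l.1.sum = j})) (Submodule.span ℚ (v '' {l | l.1.sum ≠ j})) := by
    refine h.disjoint_span_image ?_
    rw [Set.disjoint_left]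
    intro l h3 h4
    exact h4 h3
  exact (Submodule.disjoint_def.1 hdis) _ h1 h2

/-- the rational numbers: linear independence over a subfield gives linear independence over `ℚ` -/
lemma toRat {x : ℕ → ℝ} {K : Subfield ℝ}
    (h : LinearIndependent K (fun l : {l : List ℕ // Adm l} => V x l.1 0)) :
    LinearIndependent ℚ (fun l : {l : List ℕ // Adm l} => V x l.1 0) := by
  refine h.restrict_scalars ?_
  intro a b hab
  simp only [Rat.smul_def, mul_one] at hab
  exact_mod_cast hab

/-- the perturbation, with values in `(0, h)` -/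
noncomputable def xi (h t : ℝ) : ℝ := h * (Real.arctan t / Real.pi + 1 / 2)

lemma xi_mem {h : ℝ} (hh : 0 < h) (t : ℝ) : 0 < xi h t ∧ xi h t < h := by
  have h1 := Real.neg_pi_div_two_lt_arctan t
  have h2 := Real.arctan_lt_pi_div_two t
  have hpi := Real.pi_pos
  have h3 : -(1 / 2) < Real.arctan t / Real.pi := by
    rw [lt_div_iff₀ hpi]; linarith
  have h4 : Real.arctan t / Real.pi < 1 / 2 := by
    rw [div_lt_iff₀ hpi]; linarith
  unfold xi
  constructor
  · exact mul_pos hh (by linarith)
  · have : h * (Real.arctan t / Real.pi + 1 / 2) < h * 1 := mul_lt_mul_of_pos_left (by linarith) hh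
    linarith

lemma xi_inj {h : ℝ} (hh : 0 < h) {s t : ℝ} (hst : xi h s = xi h t) : s = t := by
  unfold xi at hst
  have h1 := mul_left_cancel₀ hh.ne' hst
  have h2 : Real.arctan s / Real.pi = Real.arctan t / Real.pi := by linarith
  have h3 : Real.arctan s = Real.arctan t := by
    have := Real.pi_pos
    field_simp at h2
    exact h2
  exact Real.arctan_injective h3

/-- The model exists, with arbitrarily small perturbations of an arbitrary infinite set of positive integers. -/
theorem exists_model (R : Set ℕ) (hR : R.Infinite) (h : ℕ → ℝ) (hh : ∀ n, 0 < h n) :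
    ∃ (Ω : Type) (_ : MeasurableSpace Ω) (P : Measure Ω)
    (_ : IsProbabilityMeasure P) (X : ℕ → Ω → ℝ), Model P 1 R X ∧
    (∀ n ∈ R, ∀ ω, ∃ ξ : ℝ, 0 < ξ ∧ ξ < h n ∧ X n ω = 1 / ((n : ℝ) + 1 + ξ)) ∧
    ∀ n, n ∉ R → ∀ ω, X n ω = 1 / ((n : ℝ) + 1) := by
  classical
  set μ : ℕ → Measure ℝ := fun _ => gaussianReal 0 1 with hμ
  set g : ℕ → ℝ → ℝ := fun n t => if n ∈ R then 1 / ((n : ℝ) + 1 + xi (h n) t) else 1 / ((n : ℝ) + 1) with hgdef
  set X : ℕ → (ℕ → ℝ) → ℝ := fun n ω => g n (ω n) with hX
  have hg : ∀ n : ℕ, Measurable (g n) := by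
    intro n
    rw [hgdef]
    simp only
    by_cases hn : n ∈ R
    · simp only [if_pos hn]
      refine Measurable.div measurable_const (measurable_const.add ?_)
      unfold xi
      exact ((Real.continuous_arctan.measurable.div_const _).add_const _).const_mul _
    · simp only [if_neg hn]
      exact measurable_const
  refine ⟨ℕ → ℝ, inferInstance, Measure.infinitePi μ, inferInstance, X, ?_, fun n hn ω =>
    ⟨xi (h n) (ω n), (xi_mem (hh n) _).1, (xi_mem (hh n) _).2, if_pos hn⟩, fun n hn ω => if_neg hn⟩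
  refine ⟨fun n => (hg n).comp (measurable_pi_apply n), ?_, hR, ?_, fun n hn => ⟨1 / ((n : ℝ) + 1), fun ω => if_neg hn⟩, ?_⟩
  · exact iIndepFun_infinitePi (P := μ) (X := g) fun n => hg n
  · intro n hnR t
    have h1 : {ω : ℕ → ℝ | X n ω = t} ⊆ (fun ω : ℕ → ℝ => ω n) ⁻¹' {s | g n s = t} :=
      fun ω hω => hω
    refine measure_mono_null h1 ?_
    have hms : MeasurableSet {s : ℝ | g n s = t} := hg n (measurableSet_singleton t)
    rw [← Measure.map_apply (measurable_pi_apply n) hms, Measure.infinitePi_map_eval]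
    have h2 : {s : ℝ | g n s = t}.Subsingleton := by
      intro a ha b hb
      have ha' : g n a = t := ha
      have hb' : g n b = t := hb
      rw [hgdef] at ha' hb'
      simp only [if_pos hnR] at ha' hb'
      have h3 := ha'.trans hb'.symm
      have h4 := (xi_mem (hh n) a).1
      have h5 := (xi_mem (hh n) b).1
      have hn : (0 : ℝ) ≤ n := Nat.cast_nonneg n
      rw [div_eq_div_iff (by positivity) (by positivity)] at h3
      exact xi_inj (hh n) (by linarith)
    have : NullSingletonClass (gaussianReal 0 1) := nullSingletonClass_gaussianReal (by norm_num)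
    exact h2.measure_zero _
  · intro n ω
    have hn : (0 : ℝ) ≤ n := Nat.cast_nonneg n
    rw [hX]
    simp only
    rw [hgdef]
    simp only
    split_ifs with hnR
    · have h4 := (xi_mem (hh n) (ω n)).1
      rw [abs_of_nonneg (by positivity)]
      exact div_le_div_of_nonneg_left (by norm_num) (by positivity) (by linarith)
    · rw [abs_of_nonneg (by positivity)]

end Pool.Agent.T2H51.RZ
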