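import Pool.Agent.T2H51.RZ.Defs

/-! # Linear independence almost surely -/

set_option autoImplicit false

open MeasureTheory ProbabilityTheory Filter Finset

namespace Pool.Agent.T2H51.RZ

/-- the linear combination with coefficients `c` -/
noncomputable def F (x : ℕ → ℝ) (c : List ℕ →₀ ℝ) : ℝ := ∑ l ∈ c.support, c l * V x l 0

lemma F_meas (c : List ℕ →₀ ℝ) : Measurable fun x : ℕ → ℝ => F x c := by
  unfold F
  exact Finset.measurable_sum _ fun l _ => (V_meas l 0).const_mul _

/-- the coefficients of the lists with head `j` -/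
noncomputable def hd (c : List ℕ →₀ ℝ) (j : ℕ) : List ℕ →₀ ℝ :=
  c.comapDomain (List.cons j) (List.cons_injective.injOn)

lemma hd_apply (c : List ℕ →₀ ℝ) (j : ℕ) (l : List ℕ) : hd c j l = c (j :: l) := rfl

/-- the polynomial in `x 0` -/
noncomputable def pol (y : ℕ → ℝ) (c : List ℕ →₀ ℝ) : Polynomial ℝ :=
  Polynomial.C (F y c) + ∑ l ∈ c.support.erase [], Polynomial.monomial (l.headD 0) (c l * V y l.tail 0)

lemma F_eval {x : ℕ → ℝ} {A : ℝ} (hA : 1 ≤ A) (hx : ∀ n, |x n| ≤ A / (n + 1)) (c : List ℕ →₀ ℝ)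
    (hc : ∀ l ∈ c.support, Adm l) : F x c = (pol (fun n => x (n + 1)) c).eval (x 0) := by
  classical
  unfold pol
  rw [Polynomial.eval_add, Polynomial.eval_C, Polynomial.eval_finsetSum]
  unfold F
  have h1 : ∀ l ∈ c.support, c l * V x l 0 = c l * V (fun n => x (n + 1)) l 0 +
      (if l = [] then 0 else c l * V (fun n => x (n + 1)) l.tail 0 * x 0 ^ (l.headD 0)) := by
    intro l hl
    cases l with
    | nil => simp [V]
    | cons a l =>
        rw [if_neg (by simp), V_zero hA hx a l (hc _ hl)]
        simp only [List.tail_cons, List.headD_cons]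
        ring
  rw [sum_congr rfl h1, sum_add_distrib]
  congr 1
  rw [← Finset.sum_filter_add_sum_filter_not c.support (fun l => l = [])]
  rw [Finset.sum_eq_zero (s := c.support.filter fun l => l = []) (fun l hl => by rw [if_pos (mem_filter.1 hl).2]),
    zero_add]
  have h2 : c.support.filter (fun l => ¬ l = []) = c.support.erase [] := by
    ext l
    simp only [mem_filter, mem_erase]
    tauto
  rw [h2]
  refine sum_congr rfl fun l hl => ?_
  rw [if_neg (ne_of_mem_erase hl), Polynomial.eval_monomial]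

lemma pol_coeff (y : ℕ → ℝ) (c : List ℕ →₀ ℝ) (j : ℕ) (hj : 1 ≤ j) : (pol y c).coeff j = F y (hd c j) := by
  classical
  unfold pol
  rw [Polynomial.coeff_add, Polynomial.coeff_C, if_neg (by omega), zero_add, Polynomial.finsetSum_coeff]
  simp only [Polynomial.coeff_monomial]
  rw [← Finset.sum_filter]
  unfold F
  symm
  refine Finset.sum_bij (fun l _ => j :: l) ?_ ?_ ?_ ?_
  · intro l hl
    rw [mem_filter, mem_erase]
    refine ⟨⟨by simp, ?_⟩, by simp⟩
    rw [Finsupp.mem_support_iff] at hl ⊢
    exact hl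
  · intro l _ l' _ h
    exact List.cons_injective h
  · intro l hl
    rw [mem_filter, mem_erase] at hl
    obtain ⟨⟨h1, h2⟩, h3⟩ := hl
    cases l with
    | nil => exact absurd rfl h1
    | cons a l =>
        simp only [List.headD_cons] at h3
        subst h3
        refine ⟨l, ?_, rfl⟩
        rw [Finsupp.mem_support_iff] at h2 ⊢
        exact h2
  · intro l _
    rfl

/-- the coefficients after the value `x 0 = r` has been inserted -/
noncomputable def star (c : List ℕ →₀ ℝ) (r : ℝ) : List ℕ →₀ ℝ :=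
  c + ∑ l ∈ c.support.erase [], Finsupp.single l.tail (c l * r ^ (l.headD 0))

lemma F_eq (y : ℕ → ℝ) (c : List ℕ →₀ ℝ) : F y c = Finsupp.linearCombination ℝ (fun l => V y l 0) c := rfl

lemma F_star {x : ℕ → ℝ} {A : ℝ} (hA : 1 ≤ A) (hx : ∀ n, |x n| ≤ A / (n + 1)) (c : List ℕ →₀ ℝ)
    (hc : ∀ l ∈ c.support, Adm l) : F x c = F (fun n => x (n + 1)) (star c (x 0)) := by
  rw [F_eval hA hx c hc]
  unfold pol star
  rw [Polynomial.eval_add, Polynomial.eval_C, Polynomial.eval_finsetSum, F_eq _ (c + _), map_add, map_sum, ← F_eq]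
  congr 1
  refine sum_congr rfl fun l _ => ?_
  rw [Polynomial.eval_monomial, Finsupp.linearCombination_single, smul_eq_mul]
  ring

lemma star_support (c : List ℕ →₀ ℝ) (r : ℝ) (l : List ℕ) (hl : l ∈ (star c r).support) :
    l ∈ c.support ∨ ∃ a, (a :: l) ∈ c.support := by
  classical
  by_contra hcon
  push Not at hcon
  obtain ⟨h1, h2⟩ := hcon
  rw [Finsupp.mem_support_iff] at hl
  apply hl
  unfold star
  rw [Finsupp.add_apply, Finsupp.notMem_support_iff.1 h1, zero_add, Finsupp.finsetSum_apply]
  refine Finset.sum_eq_zero fun l' hl' => ?_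
  rw [Finsupp.single_apply, if_neg]
  intro h3
  cases l' with
  | nil => exact absurd rfl (ne_of_mem_erase hl')
  | cons a l' =>
      apply h2 a
      rw [← h3]
      exact mem_of_mem_erase hl'

lemma star_ne_zero (c : List ℕ →₀ ℝ) (hc : c ≠ 0) (r : ℝ) : star c r ≠ 0 := by
  classical
  obtain ⟨l, hl, hmax⟩ := Finset.exists_max_image c.support List.length (Finsupp.support_nonempty_iff.2 hc)
  intro h0
  have h1 : star c r l = c l := by
    unfold star
    rw [Finsupp.add_apply, Finsupp.finsetSum_apply]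
    rw [Finset.sum_eq_zero, add_zero]
    intro l' hl'
    rw [Finsupp.single_apply, if_neg]
    intro h3
    cases l' with
    | nil => exact absurd rfl (ne_of_mem_erase hl')
    | cons a l' =>
        have h4 := hmax _ (mem_of_mem_erase hl')
        simp only [List.tail_cons] at h3
        rw [h3] at h4
        simp at h4
  rw [h0] at h1
  exact Finsupp.mem_support_iff.1 hl h1.symm

section
variable {Ω : Type} [MeasurableSpace Ω] {P : Measure Ω} [IsProbabilityMeasure P]

/-- the assumptions on the random sequence: independent, `|X n| ≤ A/(n+1)`, the law of `X n` has no atoms for `n` in the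
infinite set `R`, and `X n` is constant for the other `n` -/
structure Model (P : Measure Ω) (A : ℝ) (R : Set ℕ) (X : ℕ → Ω → ℝ) : Prop where
  meas : ∀ n, Measurable (X n)
  indep : iIndepFun X P
  infinite : R.Infinite
  atomless : ∀ n ∈ R, ∀ t, P {ω | X n ω = t} = 0
  const : ∀ n, n ∉ R → ∃ r, ∀ ω, X n ω = r
  bound : ∀ n ω, |X n ω| ≤ A / (n + 1)

omit [IsProbabilityMeasure P] in
lemma Model.shift {A : ℝ} (hA : 1 ≤ A) {R : Set ℕ} {X : ℕ → Ω → ℝ} (h : Model P A R X) :
    Model P A {n | n + 1 ∈ R} (fun n => X (n + 1)) where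
  meas := fun n => h.meas _
  indep := h.indep.precomp (g := fun n => n + 1) (fun a b hab => by simpa using hab)
  infinite := by
    intro hfin
    apply h.infinite
    have h1 : R ⊆ insert 0 ((fun n => n + 1) '' {n | n + 1 ∈ R}) := by
      intro n hn
      cases n with
      | zero => exact Set.mem_insert _ _
      | succ n => exact Set.mem_insert_of_mem _ ⟨n, hn, rfl⟩
    exact ((hfin.image _).insert 0).subset h1
  atomless := fun n hn t => h.atomless _ hn t
  const := fun n hn => h.const (n + 1) hn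
  bound := fun n ω => by
    refine (h.bound (n + 1) ω).trans ?_
    refine div_le_div_of_nonneg_left (by linarith) (by positivity) ?_
    push_cast
    linarith

lemma Model.indep_shift {A : ℝ} {R : Set ℕ} {X : ℕ → Ω → ℝ} (h : Model P A R X) :
    IndepFun (fun ω n => X (n + 1) ω) (X 0) P := by
  classical
  refine IndepFun.process_indepFun (X := fun n => X (n + 1)) (fun n => h.meas _) (h.meas 0) fun I => ?_
  have h1 := h.indep.indepFun_finset (I.map ⟨fun n => n + 1, fun a b hab => by simpa using hab⟩) {0} (by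
    rw [Finset.disjoint_singleton_right, Finset.mem_map]
    rintro ⟨a, -, ha⟩
    simp at ha) h.meas
  have hm1 : Measurable (fun (f : (I.map ⟨fun n => n + 1, fun a b hab => by simpa using hab⟩ : Finset ℕ) → ℝ)
      (i : I) => f ⟨i.1 + 1, Finset.mem_map.2 ⟨i.1, i.2, rfl⟩⟩) :=
    measurable_pi_lambda _ fun i => measurable_pi_apply _
  have hm2 : Measurable (fun (f : ({0} : Finset ℕ) → ℝ) => f ⟨0, mem_singleton_self 0⟩) :=
    measurable_pi_apply _
  have h2 := h1.comp hm1 hm2
  exact h2

theorem ih0 {A : ℝ} (hA : 1 ≤ A) (d : ℕ)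
    (hbase : ∀ (c : List ℕ →₀ ℝ), c ≠ 0 → (∀ l ∈ c.support, l = []) → ∀ X : ℕ → Ω → ℝ,
      P {ω | F (fun n => X n ω) c = 0} = 0)
    (ih : ∀ (k : ℕ) (c : List ℕ →₀ ℝ), c ≠ 0 →
      (∀ l ∈ c.support, Adm l ∧ l.length ≤ d) → ∀ (R : Set ℕ) (X : ℕ → Ω → ℝ), Model P A R X → k ∈ R →
      P {ω | F (fun n => X n ω) c = 0} = 0) (c : List ℕ →₀ ℝ) (hc : c ≠ 0)
    (h : ∀ l ∈ c.support, Adm l ∧ l.length ≤ d + 1) (R : Set ℕ) (X : ℕ → Ω → ℝ) (hX : Model P A R X)
    (h0R : 0 ∈ R) : P {ω | F (fun n => X n ω) c = 0} = 0 := by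
  classical
  by_cases hex : ∀ l ∈ c.support, l = []
  · exact hbase c hc hex X
  push Not at hex
  obtain ⟨l₁, hl₁, hne⟩ := hex
  obtain ⟨j, l₀, rfl⟩ : ∃ j l₀, l₁ = j :: l₀ := by
    cases l₁ with
    | nil => exact absurd rfl hne
    | cons a l => exact ⟨a, l, rfl⟩
  have hj : 1 ≤ j := adm_head (h _ hl₁).1
  have hc' : hd c j ≠ 0 := by
    intro h0
    have := Finsupp.mem_support_iff.1 hl₁
    rw [← hd_apply, h0] at this
    exact this rfl
  have h' : ∀ l ∈ (hd c j).support, Adm l ∧ l.length ≤ d := by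
    intro l hl
    have h1 : (j :: l) ∈ c.support := by
      rw [Finsupp.mem_support_iff] at hl ⊢
      exact hl
    obtain ⟨h2, h3⟩ := h _ h1
    refine ⟨adm_tail h2, ?_⟩
    simpa using h3
  obtain ⟨k', hk'⟩ := (hX.shift hA).infinite.nonempty
  have hIH := ih k' (hd c j) hc' h' {n | n + 1 ∈ R} (fun n => X (n + 1)) (hX.shift hA) hk'
  -- the law of the pair
  set Y : Ω → ℕ → ℝ := fun ω n => X (n + 1) ω with hY
  have hYm : Measurable Y := measurable_pi_lambda _ fun n => hX.meas _
  have hind : IndepFun Y (X 0) P := hX.indep_shift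
  rw [indepFun_iff_map_prod_eq_prod_map_map hYm.aemeasurable (hX.meas 0).aemeasurable] at hind
  set G : (ℕ → ℝ) × ℝ → ℝ := fun q => F q.1 c +
    ∑ l ∈ c.support.erase [], c l * V q.1 l.tail 0 * q.2 ^ (l.headD 0) with hG
  have hGm : Measurable G := by
    refine ((F_meas c).comp measurable_fst).add (Finset.measurable_sum _ fun l _ => ?_)
    exact (((V_meas l.tail 0).comp measurable_fst).const_mul _).mul (measurable_snd.pow_const _)
  have hGe : ∀ (y : ℕ → ℝ) (t : ℝ), G (y, t) = (pol y c).eval t := by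
    intro y t
    rw [hG]
    unfold pol
    simp only [Polynomial.eval_add, Polynomial.eval_C, Polynomial.eval_finsetSum, Polynomial.eval_monomial]
  have hZ : MeasurableSet {q : (ℕ → ℝ) × ℝ | G q = 0} := hGm (measurableSet_singleton 0)
  have h1 : {ω | F (fun n => X n ω) c = 0} = (fun ω => (Y ω, X 0 ω)) ⁻¹' {q | G q = 0} := by
    ext ω
    simp only [Set.mem_ofPred_eq, Set.mem_preimage]
    rw [hGe, F_eval hA (fun n => hX.bound n ω) c fun l hl => (h l hl).1]
  rw [h1, ← Measure.map_apply (hYm.prodMk (hX.meas 0)) hZ, hind, Measure.measure_prod_null hZ]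
  have hNA : NullSingletonClass (P.map (X 0)) := ⟨fun t => by
    rw [Measure.map_apply (hX.meas 0) (measurableSet_singleton t)]
    exact hX.atomless 0 h0R t⟩
  have h2 : ∀ᵐ y ∂(P.map Y), F y (hd c j) ≠ 0 := by
    rw [ae_iff]
    simp only [not_not]
    have hms : MeasurableSet {y : ℕ → ℝ | F y (hd c j) = 0} := (F_meas _) (measurableSet_singleton 0)
    rw [Measure.map_apply hYm hms]
    exact hIH
  filter_upwards [h2] with y hy
  have hp : pol y c ≠ 0 := by
    intro h0
    apply hy
    rw [← pol_coeff y c j hj, h0, Polynomial.coeff_zero]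
  have h3 : Prod.mk y ⁻¹' {q : (ℕ → ℝ) × ℝ | G q = 0} = {t : ℝ | (pol y c).IsRoot t} := by
    ext t
    simp only [Set.mem_preimage, Set.mem_ofPred_eq, Polynomial.IsRoot.def]
    rw [hGe]
  rw [h3]
  exact (Polynomial.finite_setOfPred_isRoot hp).measure_zero _


theorem ne_zero {A : ℝ} (hA : 1 ≤ A) (d : ℕ) : ∀ (k : ℕ) (c : List ℕ →₀ ℝ), c ≠ 0 →
    (∀ l ∈ c.support, Adm l ∧ l.length ≤ d) → ∀ (R : Set ℕ) (X : ℕ → Ω → ℝ), Model P A R X → k ∈ R →
    P {ω | F (fun n => X n ω) c = 0} = 0 := by
  classical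
  have hbase : ∀ (c : List ℕ →₀ ℝ), c ≠ 0 → (∀ l ∈ c.support, l = []) → ∀ X : ℕ → Ω → ℝ,
      P {ω | F (fun n => X n ω) c = 0} = 0 := by
    intro c hc h X
    have h1 : c.support = {[]} := by
      refine Finset.eq_singleton_iff_unique_mem.2 ⟨?_, h⟩
      obtain ⟨l, hl⟩ := Finsupp.support_nonempty_iff.2 hc
      have := h l hl
      rwa [this] at hl
    have h2 : {ω | F (fun n => X n ω) c = 0} = ∅ := by
      ext ω
      simp only [Set.mem_ofPred_eq, Set.mem_empty_iff_false, iff_false]
      unfold F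
      rw [h1, sum_singleton]
      simp only [V, mul_one]
      have : ([] : List ℕ) ∈ c.support := by rw [h1]; exact mem_singleton_self _
      exact Finsupp.mem_support_iff.1 this
    rw [h2, measure_empty]
  induction d with
  | zero =>
      intro k c hc h R X _ _
      exact hbase c hc (fun l hl => List.length_eq_zero_iff.1 (Nat.le_zero.1 (h l hl).2)) X
  | succ d ih =>
      intro k
      induction k with
      | succ k ihk =>
          intro c hc h R X hX hk
          by_cases h0R : 0 ∈ R
          · exact ih0 hA d hbase ih c hc h R X hX h0R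
          · obtain ⟨r, hr⟩ := hX.const 0 h0R
            have h1 := ihk (star c r) (star_ne_zero c hc r) (fun l hl => by
              rcases star_support c r l hl with h2 | ⟨a, h2⟩
              · exact h l h2
              · obtain ⟨h3, h4⟩ := h _ h2
                refine ⟨adm_tail h3, ?_⟩
                simp only [List.length_cons] at h4
                omega) {n | n + 1 ∈ R} (fun n => X (n + 1)) (hX.shift hA) hk
            have h2 : {ω | F (fun n => X n ω) c = 0} = {ω | F (fun n => X (n + 1) ω) (star c r) = 0} := by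
              ext ω
              simp only [Set.mem_ofPred_eq]
              rw [F_star hA (fun n => hX.bound n ω) c (fun l hl => (h l hl).1), hr ω]
            rw [h2]
            exact h1
      | zero =>
          intro c hc h R X hX h0R
          exact ih0 hA d hbase ih c hc h R X hX h0R

/-- **Main theorem.** -/
theorem linInd {A : ℝ} (hA : 1 ≤ A) (R : Set ℕ) (X : ℕ → Ω → ℝ) (hX : Model P A R X) (K : Subfield ℝ) [Countable K] :
    ∀ᵐ ω ∂P, LinearIndependent K (fun l : {l : List ℕ // Adm l} => V (fun n => X n ω) l.1 0) := by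
  classical
  have h1 : ∀ᵐ ω ∂P, ∀ c : {l : List ℕ // Adm l} →₀ K, c ≠ 0 →
      F (fun n => X n ω) ((c.mapRange (algebraMap K ℝ) (map_zero _)).mapDomain Subtype.val) ≠ 0 := by
    rw [ae_all_iff]
    intro c
    by_cases hc : c = 0
    · exact Filter.Eventually.of_forall fun ω h => absurd hc h
    set c' : List ℕ →₀ ℝ := (c.mapRange (algebraMap K ℝ) (map_zero _)).mapDomain Subtype.val with hc'
    have hc0 : c' ≠ 0 := by
      intro h0
      apply hc
      have h2 : c.mapRange (algebraMap K ℝ) (map_zero _) = 0 :=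
        Finsupp.mapDomain_injective Subtype.val_injective (by rw [← hc', h0, Finsupp.mapDomain_zero])
      ext l
      have h3 := DFunLike.congr_fun h2 l
      rw [Finsupp.mapRange_apply, Finsupp.zero_apply] at h3
      have h4 := (map_eq_zero (algebraMap K ℝ)).1 h3
      rw [h4]; rfl
    have hsup : ∀ l ∈ c'.support, Adm l := by
      intro l hl
      have h2 := Finsupp.mapDomain_support hl
      rw [mem_image] at h2
      obtain ⟨l', -, rfl⟩ := h2
      exact l'.2
    obtain ⟨k, hk⟩ := hX.infinite.nonempty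
    have h3 := ne_zero hA (c'.support.sup List.length) k c' hc0
      (fun l hl => ⟨hsup l hl, Finset.le_sup (f := List.length) hl⟩) R X hX hk
    have h4 : ∀ᵐ ω ∂P, F (fun n => X n ω) c' ≠ 0 := by
      rw [ae_iff]
      simp only [not_not]
      exact h3
    filter_upwards [h4] with ω h5 _
    exact h5
  filter_upwards [h1] with ω hω
  rw [linearIndependent_iff]
  intro c hc
  by_contra hne
  apply hω c hne
  unfold F
  have h2 : Finsupp.linearCombination K (fun l : {l : List ℕ // Adm l} => V (fun n => X n ω) l.1 0) c =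
      ∑ l ∈ c.support, (c l : ℝ) * V (fun n => X n ω) l.1 0 := by
    rw [Finsupp.linearCombination_apply, Finsupp.sum]
    refine sum_congr rfl fun l _ => ?_
    rw [Algebra.smul_def]
    rfl
  rw [h2] at hc
  have h3 : ∑ l ∈ ((c.mapRange (algebraMap K ℝ) (map_zero _)).mapDomain Subtype.val).support,
      ((c.mapRange (algebraMap K ℝ) (map_zero _)).mapDomain Subtype.val) l * V (fun n => X n ω) l 0 =
      ((c.mapRange (algebraMap K ℝ) (map_zero _)).mapDomain Subtype.val).sum
        (fun l r => r * V (fun n => X n ω) l 0) := rfl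
  rw [h3, Finsupp.sum_mapDomain_index (fun _ => by rw [zero_mul]) (fun _ _ _ => by rw [add_mul]),
    Finsupp.sum_mapRange_index (fun _ => by rw [zero_mul])]
  exact hc

end

end Pool.Agent.T2H51.RZ
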